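import Mathlib

/-!
# Hecke's functional equation of the Dedekind zeta function: definitions
-/

set_option autoImplicit false

open NumberField NumberField.InfinitePlace NumberField.Units
  NumberField.Units.dirichletUnitTheorem MeasureTheory Set Filter Complex
open scoped nonZeroDivisors ENNReal

namespace Pool.Agent.H27.L1.H25.HK

/-- the quadratic form of a real matrix -/
noncomputable def qf {ι : Type} [Fintype ι] (S : Matrix ι ι ℝ) (x : ι → ℝ) : ℝ :=
  ∑ i, ∑ j, x i * S i j * x j

section NF

variable (K : Type) [Field K] [NumberField K]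

/-- fractional ideals -/
abbrev FI : Type := FractionalIdeal (𝓞 K)⁰ K

/-- `∑_v e_v exp(y_v) |x|_v ^ 2` -/
noncomputable def qK (y : InfinitePlace K → ℝ) (x : K) : ℝ :=
  ∑ v : InfinitePlace K, (v.mult : ℝ) * Real.exp (y v) * (v x) ^ 2

/-- the theta function of a fractional ideal -/
noncomputable def th (M : FI K) (y : InfinitePlace K → ℝ) : ℝ :=
  ∑' x : {x : K // x ∈ M}, Real.exp (-Real.pi * qK K y x)

/-- the covolume of a fractional ideal (with respect to the trace form) -/
noncomputable def cv (M : FI K) : ℝ :=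
  Real.sqrt |(discr K : ℝ)| * (FractionalIdeal.absNorm M : ℝ)

/-- the dual fractional ideal -/
noncomputable def du (M : FI K) : FI K := FractionalIdeal.dual ℤ ℚ M

open scoped Classical in
/-- logarithmic coordinates: `τ` is the norm variable and `z` the unit variable -/
noncomputable def yc (τ : ℝ) (z : logSpace K) : InfinitePlace K → ℝ := fun v =>
  2 * τ / Module.finrank ℚ K +
    if h : v = w₀ then -(2 / (v.mult : ℝ)) * ∑ w, z w else 2 * z ⟨v, h⟩ / v.mult

open scoped Classical in
/-- a fundamental domain of the unit lattice -/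
noncomputable def Fd : Set (logSpace K) :=
  ZSpan.fundamentalDomain ((basisUnitLattice K).ofZLatticeBasis ℝ (unitLattice K))

open scoped Classical in
/-- the theta function averaged over the units -/
noncomputable def ff (M : FI K) (t : ℝ) : ℝ := ∫ z in Fd K, th K M (yc K (Real.log t) z)

/-- `I * M` is principal -/
def Pri (M : FI K) (I : Ideal (𝓞 K)) : Prop :=
  I ≠ ⊥ ∧ ∃ x : K, (I : FI K) * M = FractionalIdeal.spanSingleton (𝓞 K)⁰ x

/-- the Gamma factor of the Dedekind zeta function -/
noncomputable def gK (s : ℂ) : ℂ := Gammaℝ s ^ nrRealPlaces K * Gammaℂ s ^ nrComplexPlaces K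

/-- the completed function -/
noncomputable def comp (Z : ℂ → ℂ) (s : ℂ) : ℂ :=
  ((|(discr K : ℝ)| : ℝ) : ℂ) ^ (s / 2) * gK K s * Z s

/-- `Z` is the analytic continuation of the Dedekind zeta function (off the real axis) -/
def IsZ (Z : ℂ → ℂ) : Prop :=
  (∀ s : ℂ, s.im ≠ 0 → DifferentiableAt ℂ Z s) ∧ ∀ s : ℂ, 1 < s.re → Z s = dedekindZeta K s

end NF

/-- the number of fixed points of `g` on `G / H` -/
noncomputable def pc {G : Type} [Group G] (H : Subgroup G) (g : G) : ℕ :=
  Nat.card {x : G ⧸ H // g • x = x}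

/-- the sum of the residue degrees dividing `k` of the primes above `p` -/
noncomputable def spf (K : Type) [Field K] [NumberField K] (p k : ℕ) : ℕ :=
  ∑ᶠ P ∈ Ideal.primesOver (Ideal.span {(p : ℤ)}) (𝓞 K),
    if P.inertiaDeg ℤ ∣ k then P.inertiaDeg ℤ else 0

end Pool.Agent.H27.L1.H25.HK
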