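import Pool.Agent.H27.L1.H25.HK.Defs
import Pool.Agent.H27.L1.H25.DL.Targets2

/-!
# Hecke's functional equation of the Dedekind zeta function and Artin L-functions: targets
-/

set_option autoImplicit false

open NumberField NumberField.InfinitePlace NumberField.Units
  NumberField.Units.dirichletUnitTheorem MeasureTheory Set Filter Complex
open scoped nonZeroDivisors ENNReal

namespace Pool.Agent.H27.L1.H25.HK

/-! ### Part A: Poisson summation for Gaussians -/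

/-- (PS) Poisson summation on `ℤ^ι`. -/
def T_PS : Prop :=
  ∀ (ι : Type) [Fintype ι] (f : (ι → ℝ) → ℂ) (B : (ι → ℤ) → ℝ), Continuous f →
    Integrable f → (∀ (m : ι → ℤ) (x : ι → ℝ), (∀ i, x i ∈ Icc (0 : ℝ) 1) →
      ‖f (fun i => x i + m i)‖ ≤ B m) → Summable B →
    Summable (fun k : ι → ℤ => ∫ x : ι → ℝ, cexp (-(2 * Real.pi * (∑ i, (k i : ℝ) * x i) : ℝ) * I) * f x) →
    ∑' m : ι → ℤ, f (fun i => (m i : ℝ)) =
      ∑' k : ι → ℤ, ∫ x : ι → ℝ, cexp (-(2 * Real.pi * (∑ i, (k i : ℝ) * x i) : ℝ) * I) * f x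

/-- (GA) the Fourier transform of a Gaussian. -/
def T_GA : Prop :=
  ∀ (ι : Type) [Fintype ι] [DecidableEq ι] (S : Matrix ι ι ℝ), S.PosDef → ∀ k : ι → ℝ,
    Integrable (fun x : ι → ℝ => Real.exp (-Real.pi * qf S x)) ∧
    ∫ x : ι → ℝ, cexp (-(2 * Real.pi * (∑ i, k i * x i) : ℝ) * I) *
        (Real.exp (-Real.pi * qf S x) : ℝ) =
      ((Real.sqrt S.det)⁻¹ * Real.exp (-Real.pi * qf S⁻¹ k) : ℝ)

/-- (GS) Gaussian sums converge. -/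
def T_GS : Prop :=
  ∀ (ι : Type) [Fintype ι] [DecidableEq ι] (S : Matrix ι ι ℝ), S.PosDef →
    ∃ B : (ι → ℤ) → ℝ, Summable B ∧ ∀ (m : ι → ℤ) (x : ι → ℝ), (∀ i, x i ∈ Icc (0 : ℝ) 1) →
      Real.exp (-Real.pi * qf S (fun i => x i + m i)) ≤ B m

/-- (PO) the theta identity for positive definite matrices. -/
def T_PO : Prop :=
  ∀ (ι : Type) [Fintype ι] [DecidableEq ι] (S : Matrix ι ι ℝ), S.PosDef →
    Summable (fun m : ι → ℤ => Real.exp (-Real.pi * qf S (fun i => (m i : ℝ)))) ∧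
    ∑' m : ι → ℤ, Real.exp (-Real.pi * qf S (fun i => (m i : ℝ))) =
      (Real.sqrt S.det)⁻¹ * ∑' m : ι → ℤ, Real.exp (-Real.pi * qf S⁻¹ (fun i => (m i : ℝ)))

/-! ### Part B: lattices and theta functions -/

/-- (GM) the Gram matrix of a basis of `K` over `ℚ` and of its trace dual basis. -/
def T_GM : Prop :=
  ∀ (K : Type) [Field K] [NumberField K] (ι : Type) [Fintype ι] [DecidableEq ι]
    (b b' : Module.Basis ι ℚ K),
    (∀ i j, Algebra.trace ℚ K (b i * b' j) = if i = j then 1 else 0) →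
    ∀ y : InfinitePlace K → ℝ, ∃ S : Matrix ι ι ℝ, S.PosDef ∧
      (∀ m : ι → ℤ, qf S (fun i => (m i : ℝ)) = qK K y (∑ i, m i • b i)) ∧
      (∀ m : ι → ℤ, qf S⁻¹ (fun i => (m i : ℝ)) = qK K (-y) (∑ i, m i • b' i)) ∧
      S.det = Real.exp (∑ v, (v.mult : ℝ) * y v) * |((Algebra.discr ℚ b : ℚ) : ℝ)|

/-- (LB) bases of a fractional ideal and of its dual. -/
def T_LB : Prop :=
  ∀ (K : Type) [Field K] [NumberField K] (M : FI K), M ≠ 0 →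
    ∃ (ι : Type) (_ : Fintype ι) (_ : DecidableEq ι) (b b' : Module.Basis ι ℚ K),
      (∀ i j, Algebra.trace ℚ K (b i * b' j) = if i = j then 1 else 0) ∧
      (∀ x : K, x ∈ M ↔ ∃ m : ι → ℤ, ∑ i, m i • b i = x) ∧
      (∀ x : K, x ∈ du K M ↔ ∃ m : ι → ℤ, ∑ i, m i • b' i = x) ∧
      |((Algebra.discr ℚ b : ℚ) : ℝ)| = cv K M ^ 2

/-- (TH) the functional equation of the theta function. -/
def T_TH : Prop :=
  ∀ (K : Type) [Field K] [NumberField K] (M : FI K), M ≠ 0 → ∀ y : InfinitePlace K → ℝ,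
    Summable (fun x : {x : K // x ∈ M} => Real.exp (-Real.pi * qK K y x)) ∧
    th K M y = Real.exp (-(∑ v, (v.mult : ℝ) * y v) / 2) * (cv K M)⁻¹ * th K (du K M) (-y)

/-- (DU) the dual fractional ideal. -/
def T_DU : Prop :=
  ∀ (K : Type) [Field K] [NumberField K] (M : FI K), M ≠ 0 → du K M ≠ 0 ∧ du K (du K M) = M ∧
    du K M = M⁻¹ * du K 1 ∧ 0 < (FractionalIdeal.absNorm M : ℝ) ∧
    (FractionalIdeal.absNorm (du K M) : ℝ) * (FractionalIdeal.absNorm M : ℝ) *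
      |(discr K : ℝ)| = 1

/-- (YC) the coordinates. -/
def T_YC : Prop :=
  ∀ (K : Type) [Field K] [NumberField K],
    (∀ τ z, ∑ v, (v.mult : ℝ) * yc K τ z v = 2 * τ) ∧
    (∀ τ z, yc K (-τ) (-z) = -yc K τ z) ∧
    (∀ τ z (u : (𝓞 K)ˣ) v, yc K τ (z + logEmbedding K (Additive.ofMul u)) v =
      yc K τ z v + 2 * Real.log (v (u : K))) ∧
    (∀ τ z v, yc K τ z v = 2 * τ / Module.finrank ℚ K + yc K 0 z v) ∧
    Continuous (fun p : ℝ × logSpace K => yc K p.1 p.2) ∧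
    ∀ B : ℝ, ∃ C : ℝ, ∀ z : logSpace K, (∀ w, |z w| ≤ B) → ∀ v, |yc K 0 z v| ≤ C

/-- (UI) invariance under units. -/
def T_UI : Prop :=
  ∀ (K : Type) [Field K] [NumberField K] (M : FI K) (τ : ℝ) (z : logSpace K) (u : (𝓞 K)ˣ),
    (∀ x : K, qK K (yc K τ (z + logEmbedding K (Additive.ofMul u))) x =
      qK K (yc K τ z) ((u : K) * x)) ∧
    th K M (yc K τ (z + logEmbedding K (Additive.ofMul u))) = th K M (yc K τ z)

open scoped Classical in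
/-- (FD) the fundamental domain of the unit lattice. -/
def T_FD : Prop :=
  ∀ (K : Type) [Field K] [NumberField K],
    MeasurableSet (Fd K) ∧ (∃ B : ℝ, ∀ z ∈ Fd K, ∀ w, |z w| ≤ B) ∧ 0 < volume (Fd K) ∧
    volume (Fd K) < ⊤ ∧
    (∀ g : logSpace K → ℝ≥0∞, Measurable g →
      ∫⁻ z in Fd K, ∑' l : unitLattice K, g (z + l) = ∫⁻ z, g z) ∧
    (∀ g : logSpace K → ℂ, Integrable g → IntegrableOn (fun z => ∑' l : unitLattice K, g (z + l))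
      (Fd K) ∧ ∫ z in Fd K, ∑' l : unitLattice K, g (z + l) = ∫ z, g z) ∧
    (∀ g : logSpace K → ℝ, (∀ z, ∀ l ∈ unitLattice K, g (z + l) = g z) →
      ∫ z in Fd K, g (-z) = ∫ z in Fd K, g z)

/-- (CT) continuity of the theta function. -/
def T_CT : Prop :=
  ∀ (K : Type) [Field K] [NumberField K] (M : FI K), M ≠ 0 → Continuous (th K M)

/-- (DC) decay of the theta function. -/
def T_DC : Prop :=
  ∀ (K : Type) [Field K] [NumberField K] (M : FI K), M ≠ 0 → ∃ C c : ℝ, 0 < c ∧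
    ∀ t : ℝ, 1 ≤ t → ∀ z ∈ Fd K, |th K M (yc K (Real.log t) z) - 1| ≤
      C * Real.exp (-c * t ^ ((2 : ℝ) / Module.finrank ℚ K))

open scoped Classical in
/-- (WP) the pair of functions for Mathlib's abstract functional equation. -/
def T_WP : Prop :=
  ∀ (K : Type) [Field K] [NumberField K] (M : FI K), M ≠ 0 → ∃ P : WeakFEPair ℂ,
    (∀ t, P.f t = (ff K M t : ℂ)) ∧ (∀ t, P.g t = (ff K (du K M) t : ℂ)) ∧ P.k = 1 ∧
    P.ε = (((cv K M)⁻¹ : ℝ) : ℂ) ∧ P.f₀ = ((volume.real (Fd K) : ℝ) : ℂ) ∧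
    P.g₀ = ((volume.real (Fd K) : ℝ) : ℂ)

/-! ### Part C: unfolding -/

/-- (BI) the nonzero elements of `M` are the products of a unit and a generator. -/
def T_BI : Prop :=
  ∀ (K : Type) [Field K] [NumberField K] (M : FI K), M ≠ 0 →
    ∃ X : {I : Ideal (𝓞 K) // Pri K M I} → K,
      (∀ I, X I ≠ 0 ∧ ((|Algebra.norm ℚ (X I)| : ℚ) : ℝ) =
        (Ideal.absNorm I.1 : ℝ) * (FractionalIdeal.absNorm M : ℝ)) ∧
      (∀ I (u : (𝓞 K)ˣ), (u : K) * X I ∈ M) ∧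
      ∀ x ∈ M, x ≠ 0 → ∃! p : {I : Ideal (𝓞 K) // Pri K M I} × (𝓞 K)ˣ, x = (p.2 : K) * X p.1

/-- (UN) sums over units. -/
def T_UN : Prop :=
  ∀ (K : Type) [Field K] [NumberField K] (h : logSpace K → ℝ≥0∞),
    ∑' u : (𝓞 K)ˣ, h (logEmbedding K (Additive.ofMul u)) =
      (torsionOrder K : ℝ≥0∞) * ∑' l : unitLattice K, h l

open scoped Classical in
/-- (JA) the change of variables. -/
def T_JA : Prop :=
  ∀ (K : Type) [Field K] [NumberField K] (g : (InfinitePlace K → ℝ) → ℂ), Integrable g →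
    Integrable (fun p : ℝ × logSpace K => g (yc K p.1 p.2)) ∧
    ∫ p : ℝ × logSpace K, g (yc K p.1 p.2) = ((2 : ℂ) ^ nrRealPlaces K)⁻¹ * ∫ y, g y

/-- (G1) the one-dimensional integral. -/
def T_G1 : Prop :=
  ∀ (e a : ℝ) (s : ℂ), 0 < e → 0 < a → 0 < s.re →
    Integrable (fun y : ℝ => (Real.exp (-Real.pi * e * Real.exp y * a ^ 2) : ℂ) *
      cexp (s * e * y / 2)) ∧
    ∫ y : ℝ, (Real.exp (-Real.pi * e * Real.exp y * a ^ 2) : ℂ) * cexp (s * e * y / 2) =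
      ((Real.pi * e * a ^ 2 : ℝ) : ℂ) ^ (-(e * s / 2)) * Complex.Gamma (e * s / 2)

open scoped Classical in
/-- (GI) the Gamma integral. -/
def T_GI : Prop :=
  ∀ (K : Type) [Field K] [NumberField K] (x : K) (s : ℂ), x ≠ 0 → 0 < s.re →
    Integrable (fun p : ℝ × logSpace K =>
      (Real.exp (-Real.pi * qK K (yc K p.1 p.2) x) : ℂ) * cexp (s * p.1)) ∧
    ∫ p : ℝ × logSpace K, (Real.exp (-Real.pi * qK K (yc K p.1 p.2) x) : ℂ) * cexp (s * p.1) =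
      ((2 : ℂ) ^ (nrRealPlaces K + nrComplexPlaces K))⁻¹ * gK K s *
        (((|Algebra.norm ℚ x| : ℚ) : ℝ) : ℂ) ^ (-s)

/-- (DS) the Dedekind zeta function as a sum over ideals. -/
def T_DS : Prop :=
  ∀ (K : Type) [Field K] [NumberField K] (s : ℂ), 1 < s.re →
    Summable (fun I : {I : Ideal (𝓞 K) // I ≠ ⊥} => ‖(Ideal.absNorm I.1 : ℂ) ^ (-s)‖) ∧
    dedekindZeta K s = ∑' I : {I : Ideal (𝓞 K) // I ≠ ⊥}, (Ideal.absNorm I.1 : ℂ) ^ (-s)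

open scoped Classical in
/-- (ME) the Mellin transform of the averaged theta function. -/
def T_ME : Prop :=
  ∀ (K : Type) [Field K] [NumberField K] (M : FI K), M ≠ 0 → ∀ s : ℂ, 1 < s.re →
    mellin (fun t => (ff K M t : ℂ) - (volume.real (Fd K) : ℝ)) s =
      (torsionOrder K : ℂ) * ((2 : ℂ) ^ (nrRealPlaces K + nrComplexPlaces K))⁻¹ * gK K s *
        ((FractionalIdeal.absNorm M : ℝ) : ℂ) ^ (-s) *
        ∑' I : {I : Ideal (𝓞 K) // Pri K M I}, (Ideal.absNorm I.1 : ℂ) ^ (-s)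

/-- (CS) representatives of the ideal classes. -/
def T_CS : Prop :=
  ∀ (K : Type) [Field K] [NumberField K], ∃ (ι : Type) (_ : Fintype ι) (M : ι → FI K),
    (∀ c, M c ≠ 0) ∧ (∀ I : Ideal (𝓞 K), I ≠ ⊥ → ∃! c, Pri K (M c) I) ∧
    ∀ I : Ideal (𝓞 K), I ≠ ⊥ → ∃! c, Pri K (du K (M c)) I

/-! ### Part D: the functional equation -/

/-- (BD) the entire part of the Mellin transform is bounded in vertical strips. -/
def T_BD : Prop :=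
  ∀ (P : WeakFEPair ℂ) (b : ℝ), ∃ C : ℝ, ∀ s : ℂ, |s.re| ≤ b → ‖P.Λ₀ s‖ ≤ C

/-- (HE) Hecke's theorem. -/
def T_HE : Prop :=
  ∀ (K : Type) [Field K] [NumberField K], ∃ Z : ℂ → ℂ, IsZ K Z ∧
    (∀ s : ℂ, s.im ≠ 0 → comp K Z s = comp K Z (1 - s)) ∧
    ∀ b : ℝ, ∃ C : ℝ, ∀ s : ℂ, |s.re| ≤ b → 1 ≤ |s.im| → ‖comp K Z s‖ ≤ C

/-- (GW) polynomial growth in vertical strips. -/
def T_GW : Prop :=
  ∀ (K : Type) [Field K] [NumberField K] (Z : ℂ → ℂ), IsZ K Z →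
    (∀ s : ℂ, s.im ≠ 0 → comp K Z s = comp K Z (1 - s)) →
    (∀ b : ℝ, ∃ C : ℝ, ∀ s : ℂ, |s.re| ≤ b → 1 ≤ |s.im| → ‖comp K Z s‖ ≤ C) →
    ∀ b : ℝ, ∃ C : ℝ, 0 < C ∧ ∀ s : ℂ, |s.re| ≤ b → 1 ≤ s.im → ‖Z s‖ ≤ C * s.im ^ C

/-- (EP) the Euler product with completely multiplicative coefficients. -/
def T_EP : Prop :=
  ∀ (K : Type) [Field K] [NumberField K], ∃ h : Fin (Module.finrank ℚ K) → ℕ → ℂ,
    (∀ j, h j 0 = 0) ∧ (∀ j, h j 1 = 1) ∧ (∀ j a b, h j (a * b) = h j a * h j b) ∧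
    (∀ j a, ‖h j a‖ ≤ 1) ∧
    (∀ s : ℂ, 1 < s.re → dedekindZeta K s = ∏ j, ∑' m : ℕ, h j m * (m : ℂ) ^ (-s)) ∧
    ∀ p k : ℕ, p.Prime → 1 ≤ k → ∑ j, h j p ^ k = (spf K p k : ℂ)

/-- (LK) the Dedekind zeta function as an `LF`. -/
def T_LK : Prop :=
  ∀ (K : Type) [Field K] [NumberField K], ∃ (Z : ℂ → ℂ) (L : DL.LF), IsZ K Z ∧
    L.n = Module.finrank ℚ K ∧ L.num = Z ∧ (L.den = fun _ => 1) ∧
    ∀ s : ℂ, 0 < s.im →
      Z s * (((|(discr K : ℝ)| : ℝ) : ℂ) ^ (s - 1 / 2) *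
        (Gammaℂ s * Complex.cos (Real.pi * s / 2)) ^ (nrRealPlaces K + nrComplexPlaces K) *
        (Gammaℂ s * Complex.sin (Real.pi * s / 2)) ^ (nrComplexPlaces K)) =
      (starRingEnd ℂ) (Z (1 - (starRingEnd ℂ) s))

/-! ### Part E: Artin L-functions -/

/-- the character of `R` is rational -/
def Rat (R : DL.ArtinRep) : Prop :=
  ∀ g : R.K ≃ₐ[ℚ] R.K, ∃ q : ℚ, LinearMap.trace ℂ R.V (R.rho g) = q

/-- `Λ` is the Artin `L`-function of `R`: a meromorphic function on the complex plane that is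
given by the Euler product for `Re s > 1` -/
def IsArtin (R : DL.ArtinRep) (Λ : ℂ → ℂ) : Prop :=
  (∀ s : ℂ, MeromorphicAt Λ s) ∧ ∀ s : ℂ, 1 < s.re → HasProd (fun p => R.euler p s) (Λ s)

/-- the fixed field of a subgroup -/
abbrev FF (R : DL.ArtinRep) (H : Subgroup (R.K ≃ₐ[ℚ] R.K)) : IntermediateField ℚ R.K :=
  IntermediateField.fixedField H

/-- (PE) splitting of primes in a fixed field. -/
def T_PE : Prop :=
  ∀ (R : DL.ArtinRep) (H : Subgroup (R.K ≃ₐ[ℚ] R.K)) (p : Nat.Primes) (k : ℕ), 1 ≤ k →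
    (spf (FF R H) p k : ℂ) =
      (Nat.card (R.In p) : ℂ)⁻¹ * ∑ᶠ g : R.In p, (pc H (R.Fr p ^ k * (g : R.K ≃ₐ[ℚ] R.K)) : ℂ)

/-- (TR) traces of the powers of a Frobenius element on the invariants. -/
def T_TR : Prop :=
  ∀ (R : DL.ArtinRep) (p : Nat.Primes) (k : ℕ), 1 ≤ k →
    LinearMap.trace ℂ R.V (R.fr p ^ k) = (Nat.card (R.In p) : ℂ)⁻¹ *
      ∑ᶠ g : R.In p, LinearMap.trace ℂ R.V (R.rho (R.Fr p ^ k * (g : R.K ≃ₐ[ℚ] R.K)))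

/-- (PW) characteristic polynomials and traces of powers. -/
def T_PW : Prop :=
  ∀ (V : Type) [AddCommGroup V] [Module ℂ V] [FiniteDimensional ℂ V] (A : Module.End ℂ V)
    (α : Fin (Module.finrank ℂ V) → ℂ), (∀ X : ℂ, LinearMap.det (1 - X • A) = ∏ j, (1 - α j * X)) →
    ∀ k : ℕ, 1 ≤ k → LinearMap.trace ℂ V (A ^ k) = ∑ j, α j ^ k

/-- (AI) Artin's induction theorem for rational characters. -/
def T_AI : Prop :=
  ∀ (G : Type) [Group G] [Finite G] (V : Type) [AddCommGroup V] [Module ℂ V]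
    [FiniteDimensional ℂ V] (ρ : Representation ℂ G V),
    (∀ g, ∃ q : ℚ, LinearMap.trace ℂ V (ρ g) = q) →
    ∃ (N : ℕ) (s : Finset (Subgroup G)) (a : Subgroup G → ℤ), 1 ≤ N ∧
      ∀ g, (N : ℂ) * LinearMap.trace ℂ V (ρ g) = ∑ H ∈ s, (a H : ℂ) * (pc H g : ℂ)

/-- (AC) complex conjugation. -/
def T_AC : Prop :=
  ∀ R : DL.ArtinRep, ∃ c : R.K ≃ₐ[ℚ] R.K, c * c = 1 ∧ ∀ H : Subgroup (R.K ≃ₐ[ℚ] R.K),
    nrRealPlaces (FF R H) = pc H c ∧ Module.finrank ℚ (FF R H) = pc H 1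

/-- (LP) equality of Euler factors from equality of power sums. -/
def T_LP : Prop :=
  ∀ (ι : Type) [Fintype ι] (n : ι → ℕ) (a : ι → ℤ) (α : ∀ i, Fin (n i) → ℂ),
    (∀ i j, ‖α i j‖ ≤ 1) → (∀ k : ℕ, 1 ≤ k → ∑ i, (a i : ℂ) * ∑ j, α i j ^ k = 0) →
    ∀ X : ℂ, ‖X‖ < 1 → ∏ i, (∏ j, (1 - α i j * X)⁻¹) ^ (a i) = 1

/-- (RT) roots of holomorphic functions. -/
def T_RT : Prop :=
  (∀ (N : ℕ) (f g : ℂ → ℂ), 1 ≤ N → (∀ s : ℂ, 0 < s.im → DifferentiableAt ℂ f s) →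
    (∀ s : ℂ, 0 < s.im → DifferentiableAt ℂ g s) → (∀ s : ℂ, 0 < s.im → f s ^ N = g s ^ N) →
    ∃ ω : ℂ, ω ^ N = 1 ∧ ∀ s : ℂ, 0 < s.im → f s = ω * g s) ∧
  ∀ (N : ℕ) (Λ A B : ℂ → ℂ), 1 ≤ N → (∀ s : ℂ, MeromorphicAt Λ s) →
    (∀ s : ℂ, 0 < s.im → DifferentiableAt ℂ A s) → (∀ s : ℂ, 0 < s.im → DifferentiableAt ℂ B s) →
    (∀ s : ℂ, 1 < s.re → 0 < s.im → DifferentiableAt ℂ Λ s ∧ B s ≠ 0 ∧ Λ s ^ N * B s = A s) →
    ∃ E : ℂ → ℂ, (∀ s : ℂ, 0 < s.im → DifferentiableAt ℂ E s) ∧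
      (∀ s : ℂ, 1 < s.re → 0 < s.im → E s = Λ s * B s) ∧
      (∀ s : ℂ, 0 < s.im → E s ^ N = A s * B s ^ (N - 1)) ∧
      ∀ s : ℂ, 0 < s.im → meromorphicOrderAt Λ s + meromorphicOrderAt B s = meromorphicOrderAt E s

/-- (AE) the identity `Λ^N = ∏ ζ_K^a` for `Re s > 1`. -/
def T_AE : Prop :=
  ∀ (R : DL.ArtinRep), Rat R → ∃ (N : ℕ) (s : Finset (Subgroup (R.K ≃ₐ[ℚ] R.K)))
    (a : Subgroup (R.K ≃ₐ[ℚ] R.K) → ℤ) (h : Fin R.dim → ℕ → ℂ), 1 ≤ N ∧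
    (∀ g, (N : ℂ) * LinearMap.trace ℂ R.V (R.rho g) = ∑ H ∈ s, (a H : ℂ) * (pc H g : ℂ)) ∧
    (∀ j, h j 0 = 0) ∧ (∀ j, h j 1 = 1) ∧ (∀ j a b, h j (a * b) = h j a * h j b) ∧
    (∀ j a, ‖h j a‖ ≤ 1) ∧ ∀ Λ : ℂ → ℂ, IsArtin R Λ → ∀ z : ℂ, 1 < z.re →
      Λ z = ∏ j, ∑' m : ℕ, h j m * (m : ℂ) ^ (-z) ∧
      (∀ H, dedekindZeta (FF R H) z ≠ 0) ∧
      Λ z ^ N = ∏ H ∈ s, dedekindZeta (FF R H) z ^ (a H)

/-- (AA) an Artin `L`-function with rational character as an `LF`. -/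
def T_AA : Prop :=
  ∀ (R : DL.ArtinRep) (Λ : ℂ → ℂ), Rat R → IsArtin R Λ → ∃ L : DL.LF, L.n = R.dim ∧
    ∀ z : ℂ, 0 < z.im → analyticOrderAt L.den z ≠ ⊤ ∧ analyticOrderAt L.num z ≠ ⊤ ∧
      meromorphicOrderAt Λ z + meromorphicOrderAt L.den z = meromorphicOrderAt L.num z

/-- (FR) the final theorem. -/
def T_FR : Prop :=
  ∀ (k m : ℕ) (R : Fin k → DL.ArtinRep) (Λ : Fin k → ℂ → ℂ) (r τ : Fin k → ℝ)
    (S : Fin m → DL.ArtinRep) (M : Fin m → ℂ → ℂ) (ρ σ : Fin m → ℝ) (μ κ : ℝ),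
    (∀ i, Rat (R i) ∧ IsArtin (R i) (Λ i)) → (∀ j, Rat (S j) ∧ IsArtin (S j) (M j)) → 0 < μ →
    (∀ i, μ ≤ r i) → (∀ j, μ ≤ ρ j) →
    0 < ∑ i, r i * (R i).dim - ∑ j, ρ j * (S j).dim →
    ∑ i, r i * (R i).dim - ∑ j, ρ j * (S j).dim < μ →
    1 / 2 + (∑ i, r i * (R i).dim - ∑ j, ρ j * (S j).dim) / (2 * μ) < κ → κ ≤ 1 →
    ∃ A T₀ : ℝ, 0 < A ∧ ∀ T W : ℝ, T₀ ≤ T → T ^ κ ≤ W → W ≤ T → ∃ Z : Finset ℂ,
      W / Real.log T ^ A ≤ Z.card ∧ ∀ z ∈ Z, T ≤ z.im ∧ z.im ≤ T + W ∧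
        ∑ i, meromorphicOrderAt (Λ i) (DL.wl (r i) (τ i) z) <
          ∑ j, meromorphicOrderAt (M j) (DL.wl (ρ j) (σ j) z)

end Pool.Agent.H27.L1.H25.HK
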